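import Pool.Agent.X264.KF.Desc

/-!
# Kimura-finiteness of commutative schemes and of their noncommutative motives; base field extension

`C` and `D` are `ℚ`-linear symmetric monoidal categories, `D` is rigid, its unit object has only
rational scalars as endomorphisms, and `R` is a symmetric monoidal additive functor from `D` to
finite dimensional super vector spaces; `π : C ⥤ D` is a faithful symmetric monoidal functor.

Examples. (a) `C` is the category of Chow motives over `k`, `D` the category of noncommutative Chow
motives over `k`, `R` is (topological) periodic cyclic homology and `π` sends the Chow motive of `X`
to the noncommutative Chow motive of `perf_dg(X)`; here the morphisms of `D` between objects `π M` and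
`π N` are the finite sums of morphisms of degree `i`, that is, of morphisms from `M` to the Tate twist
`N(i)`. (b) `C` and `D` are the categories of noncommutative Chow motives over `k` and over a finite
Galois extension of `k`, and `π` is the base change.

Theorem. (1) An object `M` of `C` is Kimura-finite if and only if `π M` is Kimura-finite and the
projector to the even part of the realisation of `π M` is induced by an endomorphism of `M`.
(2) If the realisation of `π M` has weights and the endomorphisms of `π M` have parts of degree zero,
as in example (a), or if the endomorphisms of `π M` which are invariant under the Galois group come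
from endomorphisms of `M`, as in example (b), then `M` is Kimura-finite if and only if `π M` is.

So for smooth proper schemes `X` the Chow motive of `X` is Kimura-finite if and only if the
noncommutative Chow motive of `perf_dg(X)` is Kimura-finite (one of the two implications is listed in
the problem), and Kimura-finiteness of the noncommutative Chow motive of a dg category is invariant
under finite Galois extensions of the base field.
-/

set_option autoImplicit false

open CategoryTheory Limits MonoidalCategory

namespace Pool.Agent.Results.MP_6e5bed_ag.FaithfulFunctors

open Pool.Agent.Y112.SR Pool.Agent.Y112.KD Pool.Agent.X264.KF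

universe v u w v' u'

theorem result {C : Type u} [Category.{v} C] [Preadditive C] [Linear ℚ C] [MonoidalCategory C]
    [MonoidalPreadditive C] [MonoidalLinear ℚ C] [SymmetricCategory C] [IsIdempotentComplete C]
    {D : Type u'} [Category.{v'} D] [Preadditive D] [Linear ℚ D] [MonoidalCategory D]
    [MonoidalPreadditive D] [MonoidalLinear ℚ D] [SymmetricCategory D] [RightRigidCategory D]
    (hU : UnitQ D) {K : Type w} [Field K] (R : SuperRealisation D K)
    (π : C ⥤ D) [π.Additive] [π.Braided] [π.Faithful] (M : C) :
    (IsKimuraFinite M ↔ IsKimuraFinite (π.obj M) ∧ EvenPartIn π R M) ∧
    (DegreeZeroParts π R M ∨ GaloisDescent π R M →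
      (IsKimuraFinite M ↔ IsKimuraFinite (π.obj M))) := by
  refine ⟨kf_iff π R hU M, fun h => ⟨kf_map π, fun h1 => (kf_iff π R hU M).mpr ⟨h1, ?_⟩⟩⟩
  rcases h with h | h
  · exact evenPart_of_degreeZero π R h (cplus_of_kf R h1)
  · exact evenPart_of_galois π R h (cplus_of_kf R h1)

end Pool.Agent.Results.MP_6e5bed_ag.FaithfulFunctors
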