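import Pool.Agent.X264.KF.Phantom

/-!
# Noncommutative motives which are homologically dominated by Kimura-finite ones

`C` is a `ℚ`-linear, idempotent complete, rigid symmetric monoidal category whose unit object has
only rational scalars as endomorphisms, with a symmetric monoidal additive functor `R` to finite
dimensional super vector spaces over a field `K`; for the problem `C` is the category of
noncommutative Chow motives over `k` and `R` is (topological) periodic cyclic homology.

Theorem. Let `M` be an object of `C`.
(1) The following are equivalent: (a) there are a Kimura-finite object `N` and morphisms
`α : M ⟶ N`, `β : N ⟶ M` such that `α ≫ β` induces the identity of the realisation of `M`; (b) `M` is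
the direct sum of a Kimura-finite object `A` and of a phantom, that is, an object with vanishing
realisation.
(2) The object `A` in (b) is unique up to isomorphism.
(3) If (a) holds then `M` is Kimura-finite if and only if it has no phantom as direct summand.

So a smooth proper dg category `A` whose periodic cyclic homology is, by means of correspondences, a
direct summand of that of a category with Kimura-finite motive (for example `perf_dg(X)` for a product
`X` of curves) either satisfies the conjecture or its motive has a nonzero phantom summand. If the
periodic cyclic homology of `A` is spanned by classes of objects and the pairing between these classes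
is nondegenerate then the noncommutative motive of `A` is the sum of copies of the motive of the point
and of a phantom.
-/

set_option autoImplicit false

open CategoryTheory Limits MonoidalCategory

namespace Pool.Agent.Results.MP_6e5bed_ag.PhantomSummand

open Pool.Agent.Y112.SR Pool.Agent.Y112.KD Pool.Agent.X264.KF

universe v u w

theorem result {C : Type u} [Category.{v} C] [Preadditive C] [Linear ℚ C] [MonoidalCategory C]
    [MonoidalPreadditive C] [MonoidalLinear ℚ C] [SymmetricCategory C] [RightRigidCategory C]
    [IsIdempotentComplete C] (hU : UnitQ C) {K : Type w} [Field K] (R : SuperRealisation C K)
    (M : C) :
    (Dominated R M ↔ ∃ A, KimuraPart R M A) ∧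
    (∀ A A' : C, KimuraPart R M A → KimuraPart R M A' → Nonempty (A ≅ A')) ∧
    (Dominated R M →
      (IsKimuraFinite M ↔ ∀ q : M ⟶ M, q ≫ q = q → R.H.map q = 0 → q = 0)) :=
  ⟨⟨exists_part R hU, fun ⟨_, h⟩ => dominated_of_part R h⟩,
    fun _ _ => kimuraPart_unique R hU, kf_iff_no_phantom R hU⟩

end Pool.Agent.Results.MP_6e5bed_ag.PhantomSummand
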