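import Pool.Agent.X264.KF.Tensor

/-!
# Kimura-finiteness descends from a tensor product to its factors

`C` is a `ℚ`-linear, idempotent complete, rigid symmetric monoidal category whose unit object has
only rational scalars as endomorphisms, with a symmetric monoidal additive functor `R` to finite
dimensional super vector spaces over a field `K`; for the problem `C` is the category of
noncommutative Chow motives over `k` and `R` is periodic cyclic homology (characteristic zero) or
topological periodic cyclic homology after base change to the perfect closure (characteristic `p`).

Theorem. Let `M` and `N` be objects with nonzero realisations such that `M ⊗ N` is Kimura-finite.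
Then `M` and `N` are Kimura-finite.

So for smooth proper dg categories `A`, `B` with nonvanishing periodic cyclic homology, the
noncommutative Chow motive of `A ⊗ B` is Kimura-finite if and only if those of `A` and `B` are (the
other implication is the well-known stability of Kimura-finiteness under tensor products).

Steps of the proof. (1) `M ⊗ N` satisfies the sign conjecture, and taking partial supertraces one
gets algebraic parity operators of `M` and of `N`. (2) An endomorphism `f` of `M` with vanishing
realisation is nilpotent: the endomorphism `f ⊗ 1` of `M ⊗ N` is nilpotent by the nilpotence theorem
for Kimura-finite objects, and the partial trace of `f ^ k ⊗ p`, where `p` is the algebraic parity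
operator of `N`, is `f ^ k` times the total dimension of the realisation of `N`. (3) So the parity
decompositions lift to `M = M₊ ⊕ M₋`, `N = N₊ ⊕ N₋`. (4) The products `M± ⊗ N±` are killed by
exterior or symmetric powers, and contracting the second factor of the resulting identity
`asym (M±) ⊗ asym (N±) = 0` one sees that `M±` are killed.
-/

set_option autoImplicit false

open CategoryTheory Limits MonoidalCategory

namespace Pool.Agent.Results.MP_6e5bed_ag.TensorFactors

open Pool.Agent.Y112.SR Pool.Agent.Y112.KD Pool.Agent.X264.KF

universe v u w

theorem result {C : Type u} [Category.{v} C] [Preadditive C] [Linear ℚ C] [MonoidalCategory C]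
    [MonoidalPreadditive C] [MonoidalLinear ℚ C] [SymmetricCategory C] [RightRigidCategory C]
    [IsIdempotentComplete C] (hU : UnitQ C) {K : Type w} [Field K] (R : SuperRealisation C K)
    (M N : C) (hM : ¬ IsZero (R.H.obj M)) (hN : ¬ IsZero (R.H.obj N))
    (h : IsKimuraFinite (M ⊗ N)) : IsKimuraFinite M ∧ IsKimuraFinite N :=
  ⟨kf_left R hU h hM hN, kf_left R hU (h.of_iso (β_ M N)) hN hM⟩

end Pool.Agent.Results.MP_6e5bed_ag.TensorFactors
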